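import Pool.Agent.H648.Q.Defs2
import Pool.Agent.H591.Q648.SV
import Pool.Agent.H643.Q648.SFT

/-!
# Project Q648 (helper648), task SV2 (S1): the sieve without sign, both directions (helper402)
-/

set_option autoImplicit false

namespace Pool.Agent.H402.Q648

open Finset Filter
open Pool.Agent.W78.GT (Tr NT tri rts Qp mem_tri mem_rts vx vy vx_mem S_VET)
open Pool.Agent.H648.Q (S_PRD S_SFT)
open Pool.Agent.H648.Q2
open Pool.Agent.H591.Q648 (cls_of)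

/-- a prime `q` coprime to `A` with character `1` splits -/
theorem sq_of_chi {D : ℤ} {A : ℕ} (hD0 : D ≠ 0) (hA : 1 ≤ A) (hDA : 4 * D ∣ (A : ℤ))
    (hchi : S_CHI) {q : ℕ} (hq : q.Prime) (hqA : Nat.Coprime q A) (h1 : chi D A q = 1) :
    q ≠ 2 ∧ ∃ s : ZMod q, s * s = (D : ZMod q) := by
  obtain ⟨-, h2, -⟩ := hchi D A hD0 hA hDA
  have : Fact q.Prime := ⟨hq⟩
  have hnd : ∀ z : ℤ, z ∣ (A : ℤ) → ¬ (q : ℤ) ∣ z := by
    intro z hz hqz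
    have h3 : q ∣ A := Int.natCast_dvd_natCast.1 (hqz.trans hz)
    have h4 : q ∣ Nat.gcd q A := Nat.dvd_gcd dvd_rfl h3
    rw [hqA] at h4
    exact hq.one_lt.ne' (Nat.dvd_one.1 h4)
  refine ⟨?_, ?_⟩
  · rintro rfl
    refine hnd 2 (Dvd.dvd.trans ⟨2 * D, by ring⟩ hDA) ?_
    exact dvd_refl _
  · have h3 : legendreSym q D = 1 := by
      rw [jacobiSym.legendreSym.to_jacobiSym, ← h2 q hqA, h1]
    have h4 : (D : ZMod q) ≠ 0 := by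
      intro h5
      rw [ZMod.intCast_zmod_eq_zero_iff_dvd] at h5
      exact hnd D (Dvd.dvd.trans ⟨4, by ring⟩ hDA) h5
    obtain ⟨s, hs⟩ := (legendreSym.eq_one_iff q h4).1 h3
    exact ⟨s, hs.symm⟩

/-- the finite set of primes for one residue class of character `1` -/
theorem prd_res {b m κ t c : ℤ} {A M : ℕ} (ht : t = b * κ) (hc : c = m * κ ^ 2)
    (hD0 : b ^ 2 - 4 * m ≠ 0) (hA : 1 ≤ A) (hDA : 4 * (b ^ 2 - 4 * m) ∣ (A : ℤ)) (h0 : S_PRD)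
    (hchi : S_CHI) (hM : 1 ≤ M) (hAM : A ∣ M) {η : ℝ} (hη : 0 < η) (ρ : ℕ)
    (hρ : Int.gcd ρ M = 1) (hρ1 : chi (b ^ 2 - 4 * m) A ρ = 1) :
    ∃ Q : Finset ℕ, (∀ q ∈ Q, (q.Prime ∧ q ≠ 2 ∧
      (∃ s : ZMod q, s * s = ((t ^ 2 - 4 * c : ℤ) : ZMod q))) ∧ (M : ℤ) ∣ (q : ℤ) - ρ) ∧
      ∏ q ∈ Q, (1 - 1 / (q : ℝ)) ≤ η := by
  obtain ⟨hX, -, -⟩ := hchi (b ^ 2 - 4 * m) A hD0 hA hDA
  have hρM : Nat.Coprime ρ M := by
    rw [Int.gcd_natCast_natCast] at hρ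
    exact hρ
  obtain ⟨Q, hQ, hprod⟩ := h0 M ρ hM hρM η hη
  refine ⟨Q, ?_, hprod⟩
  intro q hqQ
  obtain ⟨hqp, hqr⟩ := hQ q hqQ
  have h3 : (M : ℤ) ∣ (q : ℤ) - ρ := Nat.modEq_iff_dvd.1 hqr.symm
  have h4 : (A : ℤ) ∣ (q : ℤ) - ρ := (Int.natCast_dvd_natCast.2 hAM).trans h3
  have hqM : Nat.Coprime q M := by
    have h5 : Nat.gcd q M = Nat.gcd ρ M := hqr.gcd_eq
    unfold Nat.Coprime
    rw [h5]
    exact hρM
  have hqA : Nat.Coprime q A := Nat.Coprime.coprime_dvd_right hAM hqM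
  have hq1 : chi (b ^ 2 - 4 * m) A q = 1 := by
    rw [hX.per _ _ h4, hρ1]
  obtain ⟨hq2, x, hx⟩ := sq_of_chi hD0 hA hDA hchi hqp hqA hq1
  refine ⟨⟨hqp, hq2, ⟨(κ : ZMod q) * x, ?_⟩⟩, h3⟩
  have e1 : (t ^ 2 - 4 * c : ℤ) = κ ^ 2 * (b ^ 2 - 4 * m) := by rw [ht, hc]; ring
  rw [e1, Int.cast_mul, ← hx]
  push_cast
  ring

/-- the residue class of a triple with character `1` has character `1` -/
theorem chi_cls {b m κ : ℤ} {A M : ℕ} (hD0 : b ^ 2 - 4 * m ≠ 0) (hA : 1 ≤ A)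
    (hDA : 4 * (b ^ 2 - 4 * m) ∣ (A : ℤ)) (hchi : S_CHI) (hAM : A ∣ M) (hAκ : (A : ℤ) ∣ κ)
    {X : ℝ} {e : Tr} (he : e ∈ tri (b * κ) (m * κ ^ 2) X X) (hg : Int.gcd e.2.1 κ = 1)
    (hn : chi (b ^ 2 - 4 * m) A e.2.1 = 1) {ρ : ℕ} (hρd : (M : ℤ) ∣ (e.1 : ℤ) - ρ * e.2.1) :
    chi (b ^ 2 - 4 * m) A ρ = 1 := by
  obtain ⟨hX, -, h2⟩ := hchi (b ^ 2 - 4 * m) A hD0 hA hDA
  obtain ⟨a1, a2, a3, a4, a5, a6⟩ := mem_tri.1 he
  -- primes of `e.1` do not divide `κ`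
  have hlk : ∀ l : ℕ, l.Prime → l ∣ e.1 → ¬ (l : ℤ) ∣ κ := by
    intro l hl hld hlk
    have h3 : (l : ℤ) ∣ (e.1 : ℤ) := Int.natCast_dvd_natCast.2 hld
    have h5 : (l : ℤ) ∣ e.2.1 ^ 2 := by
      have h6 : (l : ℤ) ∣ Qp (b * κ) (m * κ ^ 2) e.2.1 := by
        rw [← a5]
        exact Dvd.dvd.mul_right h3 _
      unfold Qp at h6
      have h7 : (l : ℤ) ∣ b * κ * e.2.1 + m * κ ^ 2 :=
        dvd_add (Dvd.dvd.mul_right (Dvd.dvd.mul_left hlk _) _)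
          (Dvd.dvd.mul_left (dvd_pow hlk two_ne_zero) _)
      have h8 := dvd_sub h6 h7
      have e8 : e.2.1 ^ 2 + b * κ * e.2.1 + m * κ ^ 2 - (b * κ * e.2.1 + m * κ ^ 2) =
          e.2.1 ^ 2 := by ring
      rwa [e8] at h8
    have h6 : (l : ℤ) ∣ e.2.1 := (Nat.prime_iff_prime_int.1 hl).dvd_of_dvd_pow h5
    have h7 : l ∣ Int.gcd e.2.1 κ := Int.dvd_gcd h6 hlk
    rw [hg] at h7
    exact hl.one_lt.ne' (Nat.dvd_one.1 h7)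
  have hcop : Nat.Coprime e.1 A := by
    by_contra hne
    obtain ⟨l, hl, hld⟩ := Nat.exists_prime_and_dvd hne
    exact hlk l hl (hld.trans (Nat.gcd_dvd_left _ _))
      ((Int.natCast_dvd_natCast.2 (hld.trans (Nat.gcd_dvd_right _ _))).trans hAκ)
  have h1 : chi (b ^ 2 - 4 * m) A (e.1 : ℕ) = 1 := by
    refine h2 e.1 hcop ?_
    intro l hl hld
    have : Fact l.Prime := ⟨hl⟩
    have hk0 : (κ : ZMod l) ≠ 0 := by
      intro h5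
      rw [ZMod.intCast_zmod_eq_zero_iff_dvd] at h5
      exact hlk l hl hld h5
    have h3 : ((Qp (b * κ) (m * κ ^ 2) e.2.1 : ℤ) : ZMod l) = 0 := by
      rw [ZMod.intCast_zmod_eq_zero_iff_dvd, ← a5]
      exact Dvd.dvd.mul_right (Int.natCast_dvd_natCast.2 hld) _
    unfold Qp at h3
    push_cast at h3
    refine ⟨(2 * (e.2.1 : ZMod l) + b * κ) / κ, ?_⟩
    rw [div_mul_div_comm, div_eq_iff (mul_ne_zero hk0 hk0)]
    push_cast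
    linear_combination (4 : ZMod l) * h3
  have h3 : (A : ℤ) ∣ (e.1 : ℤ) - ρ * e.2.1 := (Int.natCast_dvd_natCast.2 hAM).trans hρd
  have h4 := hX.per _ _ h3
  rw [hX.mul, hn, mul_one, h1] at h4
  exact h4.symm

/-- **Task SV2 (S1).** -/
theorem sv2_of {b m : ℤ} {A : ℕ} (hns : ¬ IsSquare (b ^ 2 - 4 * m)) (hA : 1 ≤ A)
    (hDA : 4 * (b ^ 2 - 4 * m) ∣ (A : ℤ)) (h0 : S_PRD) (hchi : S_CHI) : S_SV2 b m A := by
  classical
  intro κ M hκ hM hκM hAκ hMκ δ hδ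
  have hD0 : b ^ 2 - 4 * m ≠ 0 := by
    intro h
    exact hns ⟨0, by rw [h]; ring⟩
  have hAM : A ∣ M := Int.natCast_dvd_natCast.1 (hAκ.trans hκM)
  obtain ⟨t, ht⟩ : ∃ t, t = b * κ := ⟨_, rfl⟩
  obtain ⟨c, hc⟩ : ∃ c, c = m * κ ^ 2 := ⟨_, rfl⟩
  have hns' : ¬ IsSquare (t ^ 2 - 4 * c) := by
    rintro ⟨w, hw⟩
    have e1 : t ^ 2 - 4 * c = κ ^ 2 * (b ^ 2 - 4 * m) := by rw [ht, hc]; ring
    rw [e1] at hw
    have h3 : κ ∣ w := by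
      have h4 : κ ^ 2 ∣ w ^ 2 := ⟨b ^ 2 - 4 * m, by rw [hw]; ring⟩
      exact (Int.pow_dvd_pow_iff two_ne_zero).1 h4
    obtain ⟨v, rfl⟩ := h3
    apply hns
    refine ⟨v, ?_⟩
    have h5 : κ ^ 2 ≠ 0 := pow_ne_zero 2 hκ
    apply mul_left_cancel₀ h5
    rw [hw]
    ring
  have hvet : S_VET t c :=
    Pool.Agent.W29.GT.vet_of (Pool.Agent.W29.GT.root_of (Pool.Agent.W571.GT.rep hns'))
  obtain ⟨C₀, hC₀, hvet⟩ := hvet
  obtain ⟨C₁, hC₁, hsft⟩ := Pool.Agent.H643.Q648.sft hns'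
  have hMr : (0 : ℝ) < M := by exact_mod_cast hM
  obtain ⟨κ₀, hκ₀⟩ : ∃ κ₀ : ℝ, κ₀ = min 1 (δ / (2 * C₀)) := ⟨_, rfl⟩
  have hκ₀1 : κ₀ ≤ 1 := by rw [hκ₀]; exact min_le_left _ _
  have hκ₀2 : κ₀ ≤ δ / (2 * C₀) := by rw [hκ₀]; exact min_le_right _ _
  have hκ₀0 : 0 < κ₀ := by rw [hκ₀]; exact lt_min one_pos (by positivity)
  obtain ⟨η, hη⟩ : ∃ η : ℝ, η = δ * κ₀ / (2 * C₀ * M * C₁) := ⟨_, rfl⟩
  have hη0 : 0 < η := by rw [hη]; positivity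
  -- the sets of primes
  have hQex : ∀ ρ : ℕ, ∃ Q : Finset ℕ, Int.gcd ρ M = 1 ∧ chi (b ^ 2 - 4 * m) A ρ = 1 →
      (∀ q ∈ Q, (q.Prime ∧ q ≠ 2 ∧
        (∃ s : ZMod q, s * s = ((t ^ 2 - 4 * c : ℤ) : ZMod q))) ∧ (M : ℤ) ∣ (q : ℤ) - ρ) ∧
        ∏ q ∈ Q, (1 - 1 / (q : ℝ)) ≤ η := by
    intro ρ
    by_cases hρ : Int.gcd ρ M = 1 ∧ chi (b ^ 2 - 4 * m) A ρ = 1
    · obtain ⟨Q, hQ⟩ := prd_res ht hc hD0 hA hDA h0 hchi hM hAM hη0 ρ hρ.1 hρ.2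
      exact ⟨Q, fun _ => hQ⟩
    · exact ⟨∅, fun h => absurd h hρ⟩
  choose Qr hQr using hQex
  obtain ⟨R, hR⟩ : ∃ R : Finset ℕ, R = (Finset.range M).filter
      (fun ρ : ℕ => Int.gcd (ρ : ℤ) M = 1 ∧ chi (b ^ 2 - 4 * m) A ρ = 1) := ⟨_, rfl⟩
  have hRmem : ∀ ρ : ℕ, ρ ∈ R ↔ ρ < M ∧ Int.gcd ρ M = 1 ∧ chi (b ^ 2 - 4 * m) A ρ = 1 := by
    intro ρ
    rw [hR, Finset.mem_filter, Finset.mem_range]
  have hRcard : (R.card : ℝ) ≤ M := by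
    have h3 : R.card ≤ (Finset.range M).card := by
      rw [hR]
      exact Finset.card_filter_le _ _
    rw [Finset.card_range] at h3
    exact_mod_cast h3
  -- the thresholds
  have hXex : ∀ ρ : ℕ, ∃ X₀ : ℝ, ρ ∈ R → ∀ X : ℝ, X₀ ≤ X →
      (((rts t c X).filter (fun e => ∀ q ∈ Qr ρ, ¬ q ∣ e.1)).card : ℝ) ≤ C₁ * η * X := by
    intro ρ
    by_cases hρ : ρ ∈ R
    · obtain ⟨h3, h4⟩ := hQr ρ ((hRmem ρ).1 hρ).2
      obtain ⟨X₀, hX₀⟩ := hsft (Qr ρ) (fun q hq => (h3 q hq).1)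
      refine ⟨max X₀ 0, fun _ X hX => (hX₀ X ((le_max_left _ _).trans hX)).trans ?_⟩
      have hX0 : 0 ≤ X := (le_max_right _ _).trans hX
      exact mul_le_mul_of_nonneg_right (mul_le_mul_of_nonneg_left h4 hC₁.le) hX0
    · exact ⟨0, fun h => absurd h hρ⟩
  choose Xr hXr using hXex
  refine ⟨R.biUnion Qr, ?_, max 1 (∑ ρ ∈ R, |Xr ρ|), ?_⟩
  · intro q hq
    obtain ⟨ρ, hρ, hq⟩ := Finset.mem_biUnion.1 hq
    exact ((hQr ρ ((hRmem ρ).1 hρ).2).1 q hq).1.1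
  intro X hX
  have hX1 : 1 ≤ X := (le_max_left _ _).trans hX
  have hX2 : ∀ ρ ∈ R, Xr ρ ≤ X := by
    intro ρ hρ
    refine (le_abs_self _).trans ((Finset.single_le_sum (fun ρ _ => abs_nonneg (Xr ρ)) hρ).trans ?_)
    exact (le_max_right _ _).trans hX
  obtain ⟨V, hV⟩ : ∃ V : Finset (ℕ × ℤ), V = R.biUnion (fun ρ =>
    (rts t c X).filter (fun e => ∀ q ∈ Qr ρ, ¬ q ∣ e.1)) := ⟨_, rfl⟩
  have hVsub : V ⊆ rts t c X := by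
    intro x hx
    rw [hV, Finset.mem_biUnion] at hx
    obtain ⟨ρ, -, hx⟩ := hx
    exact (Finset.mem_filter.1 hx).1
  have hVcard : (V.card : ℝ) ≤ M * (C₁ * η * X) := by
    have h3 : V.card ≤ ∑ ρ ∈ R, ((rts t c X).filter (fun e => ∀ q ∈ Qr ρ, ¬ q ∣ e.1)).card := by
      rw [hV]
      exact Finset.card_biUnion_le
    calc (V.card : ℝ) ≤ ∑ ρ ∈ R,
          (((rts t c X).filter (fun e => ∀ q ∈ Qr ρ, ¬ q ∣ e.1)).card : ℝ) := by exact_mod_cast h3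
      _ ≤ ∑ _ρ ∈ R, C₁ * η * X := Finset.sum_le_sum fun ρ hρ => hXr ρ hρ X (hX2 ρ hρ)
      _ = R.card * (C₁ * η * X) := by rw [Finset.sum_const, nsmul_eq_mul]
      _ ≤ _ := mul_le_mul_of_nonneg_right hRcard (by positivity)
  have hbound := hvet κ₀ X V hκ₀0 hκ₀1 hX1 hVsub
  -- triples whose first entry cannot be moved
  have hkey : ∀ e : Tr, e ∈ tri t c X X → Int.gcd e.2.1 κ = 1 →
      chi (b ^ 2 - 4 * m) A e.2.1 = 1 → ¬ G1 M (R.biUnion Qr) e → vx e ∈ V := by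
    intro e he1 he2 he4 he3
    have he1' := he1
    rw [ht, hc] at he1'
    obtain ⟨ρ, hρM, hρg, hρd⟩ := cls_of hM hMκ he1' he2
    have hρ1 : chi (b ^ 2 - 4 * m) A ρ = 1 :=
      chi_cls hD0 hA hDA hchi hAM hAκ he1' he2 he4 hρd
    have hρR : ρ ∈ R := (hRmem ρ).2 ⟨hρM, hρg, hρ1⟩
    rw [hV, Finset.mem_biUnion]
    refine ⟨ρ, hρR, Finset.mem_filter.2 ⟨vx_mem he1, ?_⟩⟩
    intro l hl hld
    have hld' : l ∣ e.1 := hld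
    obtain ⟨d, hd⟩ := hld'
    apply he3
    refine ⟨l, Finset.mem_biUnion.2 ⟨ρ, hρR, hl⟩, d, hd, ?_⟩
    have hcop : IsCoprime (M : ℤ) (ρ : ℤ) := (Int.isCoprime_iff_gcd_eq_one.2 hρg).symm
    have hd' : (e.1 : ℤ) = l * d := by exact_mod_cast hd
    rw [hd'] at hρd
    have h5 := ((hQr ρ ⟨hρg, hρ1⟩).1 l hl).2
    apply hcop.dvd_of_dvd_mul_left
    have e1 : (ρ : ℤ) * (e.2.1 - d) = ((l : ℤ) - ρ) * d - ((l : ℤ) * d - ρ * e.2.1) := by ring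
    rw [e1]
    exact dvd_sub (Dvd.dvd.mul_right h5 _) hρd
  -- bad triples have one of their vertices in `V`
  have hsub : (tri (b * κ) (m * κ ^ 2) X X).filter
      (fun e => Int.gcd e.2.1 κ = 1 ∧ chi (b ^ 2 - 4 * m) A e.2.1 = 1 ∧
        ¬ (G1 M (R.biUnion Qr) e ∧ G1 M (R.biUnion Qr) (sw e))) ⊆
      (tri t c X X).filter (fun e => vx e ∈ V ∨ vy e ∈ V) := by
    intro e he
    obtain ⟨he1, he2, he4, he3⟩ := Finset.mem_filter.1 he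
    rw [← ht, ← hc] at he1
    refine Finset.mem_filter.2 ⟨he1, ?_⟩
    by_cases h5 : G1 M (R.biUnion Qr) e
    · right
      have h6 : ¬ G1 M (R.biUnion Qr) (sw e) := fun h => he3 ⟨h5, h⟩
      have h7 : sw e ∈ tri t c X X := by
        obtain ⟨a1, a2, a3, a4, a5, a6⟩ := mem_tri.1 he1
        refine mem_tri.2 ⟨a3, a4, a1, a2, ?_, a6⟩
        show (e.2.2 : ℤ) * e.1 = Qp t c e.2.1
        rw [← a5]
        ring
      exact hkey (sw e) h7 he2 he4 h6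
    · left
      exact hkey e he1 he2 he4 h5
  have hcard : ((((tri (b * κ) (m * κ ^ 2) X X).filter
      (fun e => Int.gcd e.2.1 κ = 1 ∧ chi (b ^ 2 - 4 * m) A e.2.1 = 1 ∧
        ¬ (G1 M (R.biUnion Qr) e ∧ G1 M (R.biUnion Qr) (sw e)))).card : ℕ) : ℝ) ≤
      (((tri t c X X).filter (fun e => vx e ∈ V ∨ vy e ∈ V)).card : ℝ) := by
    exact_mod_cast Finset.card_le_card hsub
  refine hcard.trans (hbound.trans ?_)
  have h6 : (V.card : ℝ) / κ₀ ≤ M * (C₁ * η * X) / κ₀ := div_le_div_of_nonneg_right hVcard hκ₀0.le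
  have h7 : C₀ * (M * (C₁ * η * X) / κ₀) = δ / 2 * X := by
    rw [hη]
    field_simp
  have h8 : C₀ * (κ₀ * X) ≤ δ / 2 * X := by
    have h9 : C₀ * κ₀ ≤ δ / 2 := by
      calc C₀ * κ₀ ≤ C₀ * (δ / (2 * C₀)) := mul_le_mul_of_nonneg_left hκ₀2 hC₀.le
        _ = δ / 2 := by field_simp
    calc C₀ * (κ₀ * X) = C₀ * κ₀ * X := by ring
      _ ≤ _ := mul_le_mul_of_nonneg_right h9 (by linarith)
  calc C₀ * (κ₀ * X + (V.card : ℝ) / κ₀) = C₀ * (κ₀ * X) + C₀ * ((V.card : ℝ) / κ₀) := by ring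
    _ ≤ δ / 2 * X + C₀ * (M * (C₁ * η * X) / κ₀) :=
        add_le_add h8 (mul_le_mul_of_nonneg_left h6 hC₀.le)
    _ = δ * X := by rw [h7]; ring

end Pool.Agent.H402.Q648
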